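import Pool.Agent.MP_66cee2_co.F.Spec
import Pool.Agent.MP_66cee2_co.D.PvC

/-
The pieces of the five classes are closed, jointly in the direction, and monotone.
-/

namespace Pool.Agent.MP_66cee2_co.F

open MeasureTheory Set Filter Metric Topology Pool.Agent.MP_66cee2_co.X
  Pool.Agent.MP_66cee2_co.XI Pool.Agent.MP_66cee2_co.D Pool.Agent.MP_66cee2_co.XI.CloA

namespace Clo5x

variable {d n : ℕ}

section closed

variable {Y : Type} [TopologicalSpace Y] {D : ℕ} {Q : Y → Ix n → MP d} {w : Y → E d}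

theorem cTop (h : ∀ a, CloA.Fam D fun x => Q x a) (hw : Continuous w) (j M : ℕ) (a : Ix n) :
    IsClosed {x | Top j (w x) M a (Q x)} :=
  closed_and isClosed_const (closed_and (closed_all fun _ => (h _).degL hw M)
    (isClosed_le continuous_const (continuous_const.mul (((h a).cco hw M).pow 2))))

theorem cGq (h : ∀ a, CloA.Fam D fun x => Q x a) (hw : Continuous w) (j m : ℕ) :
    IsClosed {x | Gq j (w x) m (Q x)} :=
  closed_and (closed_GC h) (closed_and ((h _).degL hw m)
    (isClosed_le continuous_const (continuous_const.mul (((h _).cco hw m).pow 2))))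

theorem cCl2 (h : ∀ a, CloA.Fam D fun x => Q x a) (hw : Continuous w) (j : ℕ) :
    IsClosed {x | Cl2 j (Q x)} := by
  have := closed_Cl h hw 3 j
  simpa only [cl_three] using this

theorem cPh5 (h : ∀ a, CloA.Fam D fun x => Q x a) (hw : Continuous w) (c : Fin 5) (m M : ℕ)
    (a : Ix n) (j : ℕ) : IsClosed {x | Ph5 c m M a j (w x) (Q x)} := by
  have hs : Continuous fun x => co (Q x sI) (w x) m ^ 2 := ((h _).cco hw m).pow 2
  have hS : Continuous fun x => ∑ i, co (Q x (Sum.inl i)) (w x) (m + 1) ^ 2 :=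
    continuous_finsetSum _ fun i _ => ((h _).cco hw (m + 1)).pow 2
  refine closed_or (closed_and isClosed_const ?_) (closed_or (closed_and isClosed_const ?_)
    (closed_or (closed_and isClosed_const ?_) (closed_or (closed_and isClosed_const ?_)
      (closed_and isClosed_const ?_))))
  · exact closed_and (h _).zero (closed_and (cTop h hw j M a) (closed_all fun b => (h b).tdeg M))
  · exact closed_and (cGq h hw j m) (closed_and ((h _).tdeg m) (closed_and
      (closed_all fun i => (h _).tdeg (m + 1))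
      (isClosed_le continuous_const (continuous_const.mul (hs.sub hS)))))
  · exact closed_and (h _).zero (closed_and (cTop h hw j M a) (closed_and isClosed_const
      (closed_and ((h _).degL hw m)
        (isClosed_le continuous_const (continuous_const.mul (((h _).cco hw m).pow 2))))))
  · exact closed_and (cGq h hw j m) (closed_and (cTop h hw j M a) (closed_or isClosed_const
      (closed_and isClosed_const
        (isClosed_le continuous_const (continuous_const.mul (hS.sub hs))))))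
  · exact closed_and (cGq h hw j m) (closed_and (cTop h hw j M a) (closed_and isClosed_const
      (closed_and (isClosed_le hs hS) (cCl2 h hw j))))

end closed

theorem closed (c : Fin 5) (m M : ℕ) (a : Ix n) (u : E d → Ix n → ℝ) (D K j : ℕ) :
    IsClosed {x : E d × E d | x.1 ∈ Pc u D K j (Ph5 c m M a j x.2)} := by
  let Y : Type := (E d × E d) × (Ix n → mons d D → Icc (-1 : ℝ) 1)
  have hF : ∀ b, CloA.Fam D fun y : Y => mkP D (y.2 b) := fun b => ⟨fun y => deg_mkP _, fun α => by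
    simp only [coeff_mkP]
    split_ifs
    · exact continuous_subtype_val.comp ((continuous_apply _).comp
        ((continuous_apply b).comp continuous_snd))
    · exact continuous_const⟩
  have hT : IsClosed {y : Y | ‖y.1.1‖ ≤ j ∧ (∀ τ : ℝ, 0 < τ → j * τ ≤ 1 →
      Thin (badS u (fun b => mkP D (y.2 b)) (j * τ ^ K)) y.1.1 τ) ∧
      Ph5 c m M a j y.1.2 fun b => mkP D (y.2 b)} :=
    closed_and (isClosed_le (by fun_prop) continuous_const) (closed_and
      (closed_all fun τ => closed_all fun _ => closed_all fun _ =>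
        closed_thin hF (by fun_prop) u _ τ) (cPh5 hF (by fun_prop) c m M a j))
  have hE : {x : E d × E d | x.1 ∈ Pc u D K j (Ph5 c m M a j x.2)} =
      Prod.fst '' {y : Y | ‖y.1.1‖ ≤ j ∧ (∀ τ : ℝ, 0 < τ → j * τ ≤ 1 →
        Thin (badS u (fun b => mkP D (y.2 b)) (j * τ ^ K)) y.1.1 τ) ∧
        Ph5 c m M a j y.1.2 fun b => mkP D (y.2 b)} := by
    ext x
    constructor
    · rintro ⟨h1, Q, hQ, h2⟩
      choose e he using fun b => exists_mkP (hQ.deg b) (hQ.cf b)
      obtain rfl : (fun b => mkP D (e b)) = Q := funext he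
      exact ⟨(x, e), ⟨h1, hQ.thin, h2⟩, rfl⟩
    · rintro ⟨y, ⟨h1, h2, h3⟩, rfl⟩
      refine ⟨h1, _, ⟨fun b => deg_mkP _, fun b α => ?_, h2⟩, h3⟩
      rw [coeff_mkP]
      split_ifs
      · exact abs_le.2 (y.2 b _).2
      · simp
  rw [hE]
  exact isClosedMap_fst_of_compactSpace _ hT

theorem mono (c : Fin 5) (m M : ℕ) (a : Ix n) {j j' : ℕ} (w : E d) (Q : Ix n → MP d)
    (hj : j ≤ j') (h : Ph5 c m M a j w Q) : Ph5 c m M a j' w Q := by
  have up : ∀ {x : ℝ}, 1 ≤ (j : ℝ) * x → 1 ≤ (j' : ℝ) * x := fun hx =>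
    PvCx.up (Nat.cast_nonneg j) (Nat.cast_le.2 hj) hx
  have hT : Top j w M a Q → Top j' w M a Q := fun t => ⟨t.1, t.2.1, up t.2.2⟩
  have hG : Gq j w m Q → Gq j' w m Q := fun t => ⟨t.1, t.2.1, up t.2.2⟩
  have hC : Cl2 j Q → Cl2 j' Q := fun ⟨k, h1, α, h2, h3⟩ => ⟨k, h1, α, h2, up h3⟩
  rcases h with ⟨hc, h⟩ | ⟨hc, h⟩ | ⟨hc, h⟩ | ⟨hc, h⟩ | ⟨hc, h⟩
  · exact Or.inl ⟨hc, h.1, hT h.2.1, h.2.2⟩
  · exact Or.inr (Or.inl ⟨hc, hG h.1, h.2.1, h.2.2.1, up h.2.2.2⟩)
  · exact Or.inr (Or.inr (Or.inl ⟨hc, h.1, hT h.2.1, h.2.2.1, h.2.2.2.1, up h.2.2.2.2⟩))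
  · exact Or.inr (Or.inr (Or.inr (Or.inl ⟨hc, hG h.1, hT h.2.1,
      h.2.2.imp id fun t => ⟨t.1, up t.2⟩⟩)))
  · exact Or.inr (Or.inr (Or.inr (Or.inr ⟨hc, hG h.1, hT h.2.1, h.2.2.1, h.2.2.2.1,
      hC h.2.2.2.2⟩)))

end Clo5x

theorem sClo5 : SClo5 := fun _ _ c m M a =>
  ⟨fun u D K j => Clo5x.closed c m M a u D K j, fun _ _ w Q hj h => Clo5x.mono c m M a w Q hj h⟩

end Pool.Agent.MP_66cee2_co.F
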