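import Pool.Agent.MP_66cee2_co.F.Spec
import Pool.Agent.MP_66cee2_co.D.Dich
import Pool.Agent.MP_66cee2_co.D.PvC

/-
The dichotomy for every target dimension, from the rows.
-/

namespace Pool.Agent.MP_66cee2_co.F

open MeasureTheory Set Filter Metric Topology Matrix Pool.Agent.MP_66cee2_co.X
  Pool.Agent.MP_66cee2_co.XI Pool.Agent.MP_66cee2_co.D
open scoped ENNReal RealInnerProductSpace

namespace Dichx

variable {d n : ℕ}

theorem cl2_mono {j j' : ℕ} {Q : Ix n → MP d} (hj : j ≤ j') (h : Cl2 j Q) : Cl2 j' Q := by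
  obtain ⟨m, h1, α, h2, h3⟩ := h
  exact ⟨m, h1, α, h2, PvCx.up (Nat.cast_nonneg j) (by exact_mod_cast hj) h3⟩

theorem est (hT : SEstT) (hG : SEstG) {u : E d → Ix n → ℝ} (hu : UF u) {w : E d} (hw : ‖w‖ = 1)
    (D : ℕ) (c : Fin 5) (m M : ℕ) (a : Ix n) :
    Est u D (fun j => Ph5 c m M a j w) (val c m M a w) := by
  have e0 : c = 0 → val c m M a w = fun Q : Ix n → MP d => nv a (rawE w M Q) := fun h => by
    funext Q; simp [val, h]
  have e1 : c = 1 → val c m M a w = (valG w m : (Ix n → MP d) → Ix n → ℝ) := fun h => by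
    funext Q; simp [val, h]
  have e2 : c ≠ 0 → c ≠ 1 → val c m M a w = fun Q : Ix n → MP d => nv a (rawT w M Q) :=
    fun h h' => by funext Q; simp [val, h, h']
  by_cases h0 : c = 0
  · rw [e0 h0]
    refine (hT d n u D M a w hu hw).2.mono fun j Q h => ?_
    subst h0
    rcases h with ⟨-, h⟩ | ⟨h, -⟩ | ⟨h, -⟩ | ⟨h, -⟩ | ⟨h, -⟩
    · exact ⟨h.2.1, fun b => degL_of_totalDegree (h.2.2 b) w⟩
    all_goals exact absurd h (by decide)
  by_cases h1 : c = 1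
  · rw [e1 h1]
    refine (hG d n u D m w hu hw).mono fun j Q h => ?_
    subst h1
    rcases h with ⟨h, -⟩ | ⟨-, h⟩ | ⟨h, -⟩ | ⟨h, -⟩ | ⟨h, -⟩
    · exact absurd h (by decide)
    · exact h
    all_goals exact absurd h (by decide)
  rw [e2 h0 h1]
  refine (hT d n u D M a w hu hw).1.mono fun j Q h => ?_
  rcases h with ⟨h, -⟩ | ⟨h, -⟩ | ⟨-, h⟩ | ⟨-, h⟩ | ⟨-, h⟩
  · exact absurd h h0
  · exact absurd h h1
  · exact h.2.1
  · exact h.2.1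
  · exact h.2.1

end Dichx

open Dichx in
theorem sDichN_of (hE : SEdge) (h1 : SGlue) (h2 : SEstT) (h3 : SEstG) (h4 : SClo5) (h5 : SDir)
    (h6 : SOrth) (h7 : SCase2) : SDichN := by
  intro d n P u hd hP hu
  have hU : UF u := ⟨hu.meas, hu.unit, hu.orth⟩
  rcases h7 d n P u hd hP hu with h | h
  · exact Or.inl h
  obtain ⟨w, hw, hx⟩ := h5 d n P u hd hu
  have cl : ∀ (i : ℕ × Fin 5 × ℕ × ℕ × Ix n) (K j : ℕ),
      IsClosed (Pc u i.1 K j (Ph5 i.2.1 i.2.2.1 i.2.2.2.1 i.2.2.2.2 j w)) := fun i K j =>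
    ((h4 d n i.2.1 i.2.2.1 i.2.2.2.1 i.2.2.2.2).1 u i.1 K j).preimage
      (f := fun x : E d => (x, w)) (by fun_prop)
  have mo : ∀ (i : ℕ × Fin 5 × ℕ × ℕ × Ix n) (j j' : ℕ) (Q : Ix n → MP d), j ≤ j' →
      Ph5 i.2.1 i.2.2.1 i.2.2.2.1 i.2.2.2.2 j w Q → Ph5 i.2.1 i.2.2.1 i.2.2.2.1 i.2.2.2.2 j' w Q :=
    fun i j j' Q => (h4 d n i.2.1 i.2.2.1 i.2.2.2.1 i.2.2.2.2).2 j j' w Q
  obtain ⟨V, mV, a1, a2⟩ := h1 d n u (ℕ × Fin 5 × ℕ × ℕ × Ix n) (fun i => i.1)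
    (fun i j => Ph5 i.2.1 i.2.2.1 i.2.2.2.1 i.2.2.2.2 j w)
    (fun i => val i.2.1 i.2.2.1 i.2.2.2.1 i.2.2.2.2 w) cl mo
    (fun i => est h2 h3 hU hw i.1 _ _ _ _) hx
  refine Or.inr ⟨V, mV, ?_, D.Dichx.ae_of_all (by omega) (D.Dichx.meas_lz mV) ?_, a2⟩
  · filter_upwards [a1] with x ⟨i, hi⟩
    obtain ⟨j, Q, -, -, -, b4, b5⟩ := hi 0
    rw [b5]
    exact (h6 d n Q Q w j _ 0 _ _ 0 0 _ sI (by omega) hw b4).1
  · intro v hv
    filter_upwards [h v hv, a1,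
      (measurePreserving_add_right volume v).quasiMeasurePreserving.ae a1] with x ho ⟨i, hi⟩ ⟨i', hi'⟩
    obtain ⟨j, Q, b1, b2, b3, b4, b5⟩ := hi (4 * max i.1 i'.1 + 1)
    obtain ⟨j', Q', c1, c2, c3, c4, c5⟩ := hi' (4 * max i.1 i'.1 + 1)
    have l1 : j ≤ max j j' := le_max_left _ _
    have l2 : j' ≤ max j j' := le_max_right _ _
    have A1 := PvCx.adm u _ (max i.1 i'.1) _ _ _ (max j j') x Q (le_max_left _ _) le_rfl b1 l1 b3
    have A2 := PvCx.adm u _ (max i.1 i'.1) _ _ _ (max j j') _ Q' (le_max_right _ _) le_rfl c1 l2 c3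
    have hn : ‖x - (x + v)‖ = 1 := by rw [sub_add_cancel_left, norm_neg, hv]
    have ed := hE d n u hd hU _ _ _ le_rfl (b1.trans l1) x (x + v) Q Q' A1 A2 hn
    rw [b5, c5]
    refine (h6 d n Q Q' w (max j j') _ _ _ _ _ _ _ _ (by omega) hw (mo i _ _ Q l1 b4)).2
      (mo i' _ _ Q' l2 c4) ed fun hc => ho (max i.1 i'.1) (max j j') (b1.trans l1) ?_
    exact ⟨⟨b2.trans (Nat.cast_le.2 l1), Q, A1, hc.1⟩, c2.trans (Nat.cast_le.2 l2), Q', A2, hc.2⟩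

end Pool.Agent.MP_66cee2_co.F
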