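import Pool.Agent.MP_66cee2_co.F.Spec
import Pool.Agent.MP_66cee2_co.D.Jt
import Pool.Agent.MP_66cee2_co.XI.Cls
import Pool.Agent.MP_66cee2_co.XI.Den

/-
Row Dir: one direction for almost every point.
-/

namespace Pool.Agent.MP_66cee2_co.F

open MeasureTheory Set Filter Metric Topology Matrix Pool.Agent.MP_66cee2_co.X
  Pool.Agent.MP_66cee2_co.XI Pool.Agent.MP_66cee2_co.D

namespace Dirx

theorem ty_sc {d n : ℕ} {Q : Ix n → MP d} (h : TyQ Q) {c : ℝ} (hc : c ≠ 0) :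
    TyQ fun a => c • Q a := by
  rcases h with ⟨h1, i, h2⟩ | ⟨h1, h2⟩
  · exact Or.inl ⟨by simp only [h1, smul_zero], i, smul_ne_zero hc h2⟩
  · refine Or.inr ⟨smul_ne_zero hc h1, fun z => ?_⟩
    rw [Jtx.lz_sc, h2 z, ev_smul]
    ring

end Dirx

theorem sDir : SJt → SClo5 → SExh5 → SDir := by
  intro hJ hClo hExh d n P u hd hu
  have : Nonempty (Fin d) := ⟨⟨0, by omega⟩⟩
  let Good : E d → E d → Prop := fun x z => ∃ i : ℕ × Fin 5 × ℕ × ℕ × Ix n, ∀ K, ∃ j, 1 ≤ j ∧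
    x ∈ Pc u i.1 K j (Ph5 i.2.1 i.2.2.1 i.2.2.2.1 i.2.2.2.2 j (‖z‖⁻¹ • z))
  have hm : MeasurableSet {z : E d × E d | Good z.1 z.2} := by
    rw [measurableSet_setOfPred]
    refine Measurable.exists fun i => Measurable.forall fun K => Measurable.exists fun j =>
      Measurable.and measurable_const ?_
    have hf : Measurable fun z : E d × E d => (z.1, ‖z.2‖⁻¹ • z.2) := by fun_prop
    exact measurableSet_setOfPred.1
      (((hClo d n i.2.1 i.2.2.1 i.2.2.2.1 i.2.2.2.2).1 u i.1 K j).measurableSet.preimage hf)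
  have h1 : ∀ᵐ x : E d, ∀ᵐ z : E d, Good x z := by
    filter_upwards [XI.sCls (sRem sNull) sDen d n P u hu] with x hx
    obtain ⟨Q, hQ, hT⟩ := hx
    obtain ⟨c, hc, hA⟩ := (hJ d n u hd ⟨hu.meas, hu.unit, hu.orth⟩).1 x Q hQ
    filter_upwards [hExh d n (fun a => c • Q a) (by omega) (Dirx.ty_sc hT hc.ne')] with z hz
    obtain ⟨k, m, M, a, hk⟩ := hz
    refine ⟨(Finset.univ.sup fun b => (Q b).totalDegree, k, m, M, a), fun K => ?_⟩
    obtain ⟨j, j1, j2, j3, j4⟩ := ((hA _ (Jtx.deg_le Q) K).and (hk.and ((eventually_ge_atTop 1).and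
      (tendsto_natCast_atTop_atTop.eventually_ge_atTop ‖x‖)))).exists
    exact ⟨j, j3, j4, _, j1, j2⟩
  have h2 : ∀ᵐ a : E d, a ≠ 0 := compl_mem_ae_iff.2 (measure_singleton (0 : E d))
  obtain ⟨a, ha, ha0⟩ := (((Measure.ae_ae_comm (p := Good) hm).1 h1).and h2).exists
  exact ⟨‖a‖⁻¹ • a, norm_smul_inv_norm ha0, ha⟩

end Pool.Agent.MP_66cee2_co.F
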