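import Pool.Agent.MP_66cee2_co.F.Spec
import Pool.Agent.MP_66cee2_co.D.DegT

/-
Euclidean members against members with a short slope.
-/

namespace Pool.Agent.MP_66cee2_co.F

open Polynomial Pool.Agent.MP_66cee2_co.X Pool.Agent.MP_66cee2_co.XI Pool.Agent.MP_66cee2_co.D

namespace EGx

variable {d n : ℕ}

theorem ne_of_le {j : ℕ} {a : ℝ} (h : 1 ≤ (j : ℝ) * a ^ 2) : a ≠ 0 := by
  rintro rfl
  norm_num at h

/-- the vector without its last coordinate. -/
noncomputable def cut (Q : Ix n → MP d) : Ix n → MP d :=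
  Sum.elim (fun i => Q (Sum.inl i)) fun b => cond b (Q sI) 0

theorem edge_cut {Q Q' : Ix n → MP d} (h0 : Q sI = 0) (h : EdgeId Q Q') : EdgeId Q (cut Q') := by
  intro z w hw
  have := h z w hw
  rw [lz_eq] at this ⊢
  simpa [evv, cut, h0] using this

theorem ort_co {Q Q' : Ix n → MP d} {a b : ℕ} (h0 : Q sI = 0) (h : Ort (hc a Q) (hc b (cut Q')))
    (w : E d) : 2 * ∑ i, co (Q (Sum.inl i)) w a * co (Q' (Sum.inl i)) w b +
      co (Q (Sum.inr false)) w a * co (Q' sI) w b = 0 := by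
  have := h w w
  rw [lz_eq] at this
  simpa [evv, cut, hc, h0, co_eq_ev] using this

end EGx

open EGx DegTx in
theorem sEG : SDrop → SET → SEG := by
  intro hD hT d n Q Q' w j m M m' a hd hw hE ⟨⟨_, g1, g2⟩, g3, g4, _⟩
  have q0 := ne_of_le g2
  refine ⟨fun ⟨h0, _, h1⟩ => ?_, fun ⟨h0, ⟨_, h1, _⟩, h2, h3, h4⟩ => ?_⟩
  · have key : ∀ b, m' ≤ b → Ort (hc M Q) (hc b (cut Q')) := by
      intro b hb
      rcases hD d n Q (cut Q') M (m' + 1) hd (edge_cut h0 hE) h1 (by
        rintro (i | _ | _)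
        · exact g4 i
        · simp [cut]
        · exact g3.trans (Nat.le_succ _)) with h | ⟨M₀, A, -, hA, h5, h6⟩
      · exact h.2 _ _
      · obtain ⟨k, hk⟩ := Function.ne_iff.1 hA
        obtain ⟨a', b', e, l1, l2, -⟩ := h6 k hk
        exact h5 _ _ (by omega)
    have k1 := ort_co h0 (key m' le_rfl) w
    have k2 := ort_co h0 (key (m' + 1) (Nat.le_succ _)) w
    rw [g1 _ (Nat.lt_succ_self _), mul_zero, add_zero] at k2
    have e0 : co (Q (Sum.inr true)) w M = 0 := by
      rw [show Q (Sum.inr true) = 0 from h0, co_eq_ev]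
      simp
    have e1 : ∀ i, co (Q (Sum.inl i)) w M * os w m' Q' i =
        co (Q (Sum.inl i)) w M * co (Q' (Sum.inl i)) w m' * (co (Q' sI) w m')⁻¹ -
          co (Q (Sum.inl i)) w M * co (Q' (Sum.inl i)) w (m' + 1) *
            ((X * ln (Q' sI) 0 w).coeff m' * ((co (Q' sI) w m')⁻¹) ^ 2) := fun i => by
      simp only [os, ofs, slp, co]
      ring
    rw [lz_eq]
    simp only [rawE, valG, Sum.elim_inl, Sum.elim_inr, cond_true, e0, zero_mul, add_zero, mul_one,
      e1, Finset.sum_sub_distrib, ← Finset.sum_mul]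
    have e2 := mul_inv_cancel₀ q0
    linear_combination (co (Q' sI) w m')⁻¹ * k1 -
      ((X * ln (Q' sI) 0 w).coeff m' * ((co (Q' sI) w m')⁻¹) ^ 2) * k2 -
      co (Q (Sum.inr false)) w M * e2
  · obtain ⟨k, rfl⟩ : ∃ k, m = k + 1 := ⟨m - 1, by omega⟩
    have h5 : ∀ i, DegL (Q (Sum.inl i)) w k := fun i l hl => h1 i l (by omega)
    have h6 := hT d n Q Q' w k m' (m' + 1) hw hE h0 h5 g1 q0
      (fun i => degL_of_totalDegree (g4 i) w) (Nat.lt_succ_self _)
    have h7 : lzP Q Q' w w = 0 := Polynomial.funext fun s => by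
      rw [eval_lzP, add_comm, hE _ w hw, eval_zero]
    have h8 := congrArg (fun r : ℝ[X] => r.coeff (k + 1 + m')) h7
    have h9 : ln (Q (Sum.inr true)) 0 w = 0 := by
      rw [show Q (Sum.inr true) = 0 from h0]; exact map_zero _
    simp only [lzP, coeff_add, coeff_C_mul, finsetSum_coeff, h9, zero_mul, coeff_zero] at h8
    have e1 : ∀ i, (ln (Q (Sum.inl i)) 0 w * ln (Q' (Sum.inl i)) w w).coeff (k + 1 + m') =
        co (Q (Sum.inl i)) w k * co (Q' (Sum.inl i)) w (m' + 1) := fun i => by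
      rw [show k + 1 + m' = k + (m' + 1) by omega,
        coeff_mul_add_eq_of_natDegree_le (degL_iff.1 (h5 i)) (natDegree_ln (g4 i) w w),
        coeff_ln_top (g4 i)]
      rfl
    rw [Finset.sum_congr rfl fun i _ => e1 i, h6,
      coeff_mul_add_eq_of_natDegree_le (degL_iff.1 h3) (natDegree_ln g3 w w),
      coeff_ln_top g3] at h8
    exact mul_ne_zero (ne_of_le h4) q0 (by simpa [co] using h8)

end Pool.Agent.MP_66cee2_co.F
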