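import Pool.Agent.MP_66cee2_co.F.Spec
import Pool.Agent.MP_66cee2_co.H83.EG

/-
Row ET: Euclidean members against members whose Euclidean part has the larger degree.
-/

namespace Pool.Agent.MP_66cee2_co.F

open Pool.Agent.MP_66cee2_co.X Pool.Agent.MP_66cee2_co.XI Pool.Agent.MP_66cee2_co.D

namespace ETx

theorem natDeg {d : ℕ} {q : MP d} {w : E d} {m : ℕ} (h : DegL q w m) :
    (ln q 0 w).natDegree ≤ m :=
  Polynomial.natDegree_le_iff_coeff_eq_zero.2 fun k hk => h k hk

/-- the identity of an edge on the line. -/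
theorem line {d n : ℕ} {Q Q' : Ix n → MP d} {w : E d} (hw : ‖w‖ = 1) (hE : EdgeId Q Q')
    (h0 : Q sI = 0) (s r : ℝ) (hr : r = s + 1 ∨ r = s - 1) :
    2 * ∑ i, (ln (Q (Sum.inl i)) 0 w).eval s * (ln (Q' (Sum.inl i)) 0 w).eval r +
      (ln (Q (Sum.inr false)) 0 w).eval s * (ln (Q' sI) 0 w).eval r = 0 := by
  have h1 : lz (evv Q (s • w)) (evv Q' (r • w)) = 0 := by
    rcases hr with rfl | rfl
    · rw [add_smul, one_smul]
      exact hE _ w hw
    · rw [sub_smul, one_smul, sub_eq_add_neg]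
      exact hE _ (-w) (by rw [norm_neg, hw])
  have h2 : Q (Sum.inr true) = 0 := h0
  rw [lz_eq] at h1
  simp only [evv, h2, XI.ev_zero, zero_mul, add_zero] at h1
  simp only [eval_ln_zero]
  exact h1

end ETx

open ETx in
theorem sET : SET := by
  intro d n Q Q' w M m' M' hw hE h0 hp hq hq0 hp' hm
  exact (H83.eg (fun i => ln (Q (Sum.inl i)) 0 w) (fun i => ln (Q' (Sum.inl i)) 0 w)
    (ln (Q (Sum.inr false)) 0 w) (ln (Q' sI) 0 w) M m' (line hw hE h0) (fun i => natDeg (hp i))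
    (natDeg hq) hq0).1 M' hm fun i => natDeg (hp' i)

end Pool.Agent.MP_66cee2_co.F
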