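import Pool.Agent.MP_66cee2_co.F.Spec
import Pool.Agent.MP_66cee2_co.XI.Dat1
import Pool.Agent.MP_66cee2_co.XI.Hol
import Pool.Agent.MP_66cee2_co.XI.Rem
import Pool.Agent.MP_66cee2_co.XI.Null
import Pool.Agent.MP_66cee2_co.XI.Coef

/-
The estimate for slope and offset.
-/

namespace Pool.Agent.MP_66cee2_co.F

open Set Polynomial Pool.Agent.MP_66cee2_co.X Pool.Agent.MP_66cee2_co.XI
  Pool.Agent.MP_66cee2_co.D Pool.Agent.MP_66cee2_co.XI.Dat1A

namespace EstGx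

theorem sqs {n : ℕ} {a b : Fin n → ℝ} {A δ : ℝ} (ha : ∀ i, |a i| ≤ A) (hb : ∀ i, |b i| ≤ A)
    (h : ∀ i, |a i - b i| ≤ δ) : |∑ i, a i ^ 2 - ∑ i, b i ^ 2| ≤ n * (2 * A * δ) := by
  rw [← Finset.sum_sub_distrib]
  refine (Finset.abs_sum_le_sum_abs _ _).trans ?_
  refine (Finset.sum_le_card_nsmul _ _ (2 * A * δ) fun i _ => ?_).trans (by simp)
  rw [show a i ^ 2 - b i ^ 2 = (a i + b i) * (a i - b i) by ring, abs_mul]
  have h0 : 0 ≤ A := (abs_nonneg _).trans (ha i)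
  exact mul_le_mul ((abs_add_le _ _).trans (by linarith [ha i, hb i])) (h i) (abs_nonneg _)
    (by positivity)

theorem bds {P q : ℝ[X]} {m j : ℕ} {c : ℝ} (hP : ∀ k, |P.coeff k| ≤ c) (hq : ∀ k, |q.coeff k| ≤ c)
    (h0 : |(q.coeff m)⁻¹| ≤ j) : |slp P q m| ≤ c * j ∧ |ofs P q m| ≤ (c + c * j * c) * j := by
  have hc0 : 0 ≤ c := (abs_nonneg _).trans (hP 0)
  have h1 : |slp P q m| ≤ c * j := by
    simp only [slp, div_eq_mul_inv, abs_mul]
    exact mul_le_mul (hP _) h0 (abs_nonneg _) hc0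
  refine ⟨h1, ?_⟩
  simp only [ofs, div_eq_mul_inv, abs_mul]
  refine mul_le_mul ((abs_sub _ _).trans (add_le_add (hP _) ?_)) h0 (abs_nonneg _) (by positivity)
  rw [abs_mul]
  exact mul_le_mul h1 (abs_X_mul hq _) (abs_nonneg _) (by positivity)

theorem dfs {P P' q q' : ℝ[X]} {m j : ℕ} {c C ρ : ℝ} (hC : 0 ≤ C) (hρ : 0 ≤ ρ)
    (hP : P.natDegree ≤ m + 1) (hq : q.natDegree ≤ m)
    (hP' : P'.natDegree ≤ m + 1) (hq' : q'.natDegree ≤ m)
    (c1 : ∀ k, |q.coeff k| ≤ c) (c2 : ∀ k, |q'.coeff k| ≤ c)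
    (h : q.coeff m ≠ 0 ∧ |(q.coeff m)⁻¹| ≤ j) (h' : q'.coeff m ≠ 0 ∧ |(q'.coeff m)⁻¹| ≤ j)
    (hR : ∀ k, |(P * q' - q * P').coeff k| ≤ C * ρ) :
    |slp P q m - slp P' q' m| ≤ j * j * C * ρ ∧
      |ofs P q m - ofs P' q' m| ≤ j * j * (C + j * j * C * (c * c + c * c)) * ρ := by
  have hc0 : 0 ≤ c := (abs_nonneg _).trans (c1 0)
  obtain ⟨e1, e2⟩ := diffs hP hq hP' hq' h.1 h'.1
  have h1 : |slp P q m - slp P' q' m| ≤ j * j * C * ρ := by
    rw [e1, abs_mul, abs_mul, mul_assoc (j * j : ℝ)]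
    have := h.2
    have := h'.2
    have := hR (m + m + 1)
    gcongr
  refine ⟨h1, ?_⟩
  rw [e2, abs_mul, abs_mul, mul_assoc (j * j : ℝ)]
  refine mul_le_mul (mul_le_mul h.2 h'.2 (abs_nonneg _) (by positivity))
    ((abs_sub _ _).trans ?_) (abs_nonneg _) (by positivity)
  rw [add_mul, mul_right_comm, abs_mul]
  refine add_le_add (hR _) (mul_le_mul h1 ((abs_add_le _ _).trans ?_) (abs_nonneg _)
    (by positivity))
  rw [abs_mul, abs_mul]
  exact add_le_add (mul_le_mul (c1 _) (abs_X_mul c2 _) (abs_nonneg _) hc0)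
    (mul_le_mul (abs_X_mul c1 _) (c2 _) (abs_nonneg _) hc0)

end EstGx

open EstGx in
theorem sEstG : SEstG := by
  intro d n u D m w hu hw p j hp hj
  obtain ⟨C, r, hr, hC⟩ := sHol (sRem sNull) sCoef d n u hu D p j hp hj
  set c : ℝ := ((mons d D).card : ℝ) with hc
  have hc0 : 0 ≤ c := by positivity
  set A : ℝ := c * j
  set B : ℝ := (c + c * j * c) * j
  set dA : ℝ := j * j * |C|
  set dB : ℝ := j * j * (|C| + j * j * |C| * (c * c + c * c))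
  have p1 : 0 ≤ dB := by positivity
  have p2 : 0 ≤ n * (2 * B * dB) := by positivity
  have p3 : 0 ≤ n * (2 * A * dA) := by positivity
  refine ⟨dB + n * (2 * B * dB) + n * (2 * A * dA), r, by positivity, hr,
    fun K hK x y Q Q' a1 a2 a3 a4 g1 g2 => ?_⟩
  set ρ : ℝ := ‖x - y‖ ^ p
  have hρ : 0 ≤ ρ := by positivity
  have cf : ∀ a k, |(ln (Q a) 0 w).coeff k| ≤ c := fun a k =>
    abs_co_le (a1.deg _) (a1.cf _) hw.le k
  have cf' : ∀ a k, |(ln (Q' a) 0 w).coeff k| ≤ c := fun a k =>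
    abs_co_le (a2.deg _) (a2.cf _) hw.le k
  have i1 := inv_le g1.1.2.2
  have i2 := inv_le g2.1.2.2
  have b1 := fun i => bds (m := m) (j := j) (cf (Sum.inl i)) (cf sI) i1.2
  have b2 := fun i => bds (m := m) (j := j) (cf' (Sum.inl i)) (cf' sI) i2.2
  have df := fun i => dfs (j := j) (abs_nonneg C) hρ (natDegree_ln (g1.2.2.1 i) 0 w)
    (natDegree_ln g1.2.1 0 w) (natDegree_ln (g2.2.2.1 i) 0 w) (natDegree_ln g2.2.1 0 w)
    (cf sI) (cf' sI) i1 i2 fun k =>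
      (hC K hK x y Q Q' a1 a2 a3 a4 w hw.le (Sum.inl i) sI k).trans
        (mul_le_mul_of_nonneg_right (le_abs_self C) hρ)
  have s1 : |∑ i, os w m Q i ^ 2 - ∑ i, os w m Q' i ^ 2| ≤ n * (2 * B * (dB * ρ)) :=
    sqs (fun i => (b1 i).2) (fun i => (b2 i).2) fun i => (df i).2
  have s2 : |∑ i, sl w m Q i ^ 2 - ∑ i, sl w m Q' i ^ 2| ≤ n * (2 * A * (dA * ρ)) :=
    sqs (fun i => (b1 i).1) (fun i => (b2 i).1) fun i => (df i).1
  have q1 := mul_nonneg p1 hρ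
  have q2 := mul_nonneg p2 hρ
  have q3 := mul_nonneg p3 hρ
  refine (pi_norm_le_iff_of_nonneg (by positivity)).2 ?_
  rintro (i | _ | _)
  · have : |os w m Q i - os w m Q' i| ≤ dB * ρ := (df i).2
    simp only [valG, Pi.sub_apply, Sum.elim_inl, Real.norm_eq_abs]
    linarith
  · simp only [valG, Pi.sub_apply, Sum.elim_inr, cond_false, Real.norm_eq_abs]
    rw [abs_le] at s1 s2 ⊢
    constructor <;> nlinarith [s1.1, s1.2, s2.1, s2.2]
  · simp only [valG, Pi.sub_apply, Sum.elim_inr, cond_true, sub_self, norm_zero]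
    positivity

end Pool.Agent.MP_66cee2_co.F
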