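import Pool.Agent.MP_66cee2_co.F.Spec
import Pool.Agent.MP_66cee2_co.D.PvH

/-
The estimate for the top coefficients.
-/

namespace Pool.Agent.MP_66cee2_co.F

open Polynomial Pool.Agent.MP_66cee2_co.X Pool.Agent.MP_66cee2_co.XI Pool.Agent.MP_66cee2_co.D

namespace EstTx

theorem key {d n : ℕ} {u : E d → Ix n → ℝ} (hu : UF u) (D M p j : ℕ) (hp : 1 ≤ p) (hj : 1 ≤ j)
    {w : E d} (hw : ‖w‖ = 1) : ∃ C r : ℝ, 0 ≤ C ∧ 0 < r ∧
      ∀ K, 2 * D + p ≤ K → ∀ x y Q Q', Adm u D K j x Q → Adm u D K j y Q' → ‖x‖ ≤ j →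
        ‖x - y‖ ≤ r → ∀ a b, DegL (Q a) w M → DegL (Q' a) w M → DegL (Q b) w M →
        DegL (Q' b) w M → 1 ≤ (j : ℝ) * co (Q a) w M ^ 2 → 1 ≤ (j : ℝ) * co (Q' a) w M ^ 2 →
        |(co (Q a) w M)⁻¹ * co (Q b) w M - (co (Q' a) w M)⁻¹ * co (Q' b) w M| ≤
          C * ‖x - y‖ ^ p := by
  obtain ⟨C, r, hr, h⟩ := sHol (sRem sNull) sCoef d n u hu D p j hp hj
  have hj' : (0 : ℝ) < j := Nat.cast_pos.2 hj
  refine ⟨j * |C|, r, by positivity, hr,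
    fun K hK x y Q Q' hQ hQ' hx hxy a b h1 h2 h3 h4 h5 h6 => ?_⟩
  have h7 := h K hK x y Q Q' hQ hQ' hx hxy w hw.le b a (M + M)
  rw [coeff_sub, coeff_mul_add_eq_of_natDegree_le (degL_iff.1 h3) (degL_iff.1 h2),
    coeff_mul_add_eq_of_natDegree_le (degL_iff.1 h1) (degL_iff.1 h4)] at h7
  rw [mul_assoc]
  exact PvHx.quot hj' h5 h6 (h7.trans
    (mul_le_mul_of_nonneg_right (le_abs_self C) (pow_nonneg (norm_nonneg _) p)))

end EstTx

theorem sEstT : SEstT := by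
  intro d n u D M a w hu hw
  refine ⟨fun p j hp hj => ?_, fun p j hp hj => ?_⟩
  · obtain ⟨C, r, hC, hr, h⟩ := EstTx.key hu D M p j hp hj hw
    refine ⟨C, r, hC, hr, fun K hK x y Q Q' hQ hQ' hx hxy hP hP' => ?_⟩
    obtain ⟨⟨i, rfl⟩, h1, h2⟩ := hP
    obtain ⟨-, h3, h4⟩ := hP'
    refine (pi_norm_le_iff_of_nonneg (by positivity)).2 fun b => ?_
    rcases b with k | b
    · have := h K hK x y Q Q' hQ hQ' hx hxy _ _ (h1 i) (h3 i) (h1 k) (h3 k) h2 h4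
      simpa [nv, rawT, Real.norm_eq_abs] using this
    · have : 0 ≤ C * ‖x - y‖ ^ p := by positivity
      simpa [nv, rawT] using this
  · obtain ⟨C, r, hC, hr, h⟩ := EstTx.key hu D M p j hp hj hw
    refine ⟨C, r, hC, hr, fun K hK x y Q Q' hQ hQ' hx hxy hP hP' => ?_⟩
    refine (pi_norm_le_iff_of_nonneg (by positivity)).2 fun b => ?_
    have := h K hK x y Q Q' hQ hQ' hx hxy a b (hP.2 a) (hP'.2 a) (hP.2 b) (hP'.2 b) hP.1.2.2
      hP'.1.2.2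
    simpa [nv, rawE, Real.norm_eq_abs] using this

end Pool.Agent.MP_66cee2_co.F
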