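import Pool.Agent.MP_66cee2_co.F.Spec
import Pool.Agent.MP_66cee2_co.XI.ExhI
import Pool.Agent.MP_66cee2_co.XI.Null

/-
A typed vector has one of the five classes in almost every direction.
-/

namespace Pool.Agent.MP_66cee2_co.F

open MeasureTheory Set Filter Metric Topology Pool.Agent.MP_66cee2_co.X
  Pool.Agent.MP_66cee2_co.XI Pool.Agent.MP_66cee2_co.D Pool.Agent.MP_66cee2_co.XI.ExhIA

namespace Exh5x

variable {d n : ℕ}

theorem top {Q : Ix n → MP d} {w : E d} {M : ℕ} (h : ∀ i, (Q (Sum.inl i)).totalDegree ≤ M)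
    (hp : 0 < ∑ i, co (Q (Sum.inl i)) w M ^ 2) :
    ∃ a : Ix n, ∀ᶠ j : ℕ in atTop, Top j w M a Q := by
  obtain ⟨i, -, hi⟩ := Finset.exists_ne_zero_of_sum_ne_zero hp.ne'
  exact ⟨Sum.inl i, (ev_one_le (lt_of_le_of_ne (sq_nonneg _) hi.symm)).mono fun j hj =>
    ⟨⟨i, rfl⟩, fun k => degL_of_totalDegree (h k) _, hj⟩⟩

theorem gq {Q : Ix n → MP d} {w : E d} (h : GC Q)
    (hp : 0 < co (Q sI) w (Q sI).totalDegree ^ 2) :
    ∀ᶠ j : ℕ in atTop, Gq j w (Q sI).totalDegree Q :=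
  (ev_one_le hp).mono fun _ hj => ⟨h, degL_of_totalDegree le_rfl _, hj⟩

end Exh5x

open Exh5x in
theorem sExh5 : SExh5 := by
  intro d n Q hd hT
  rcases hT with ⟨h1, h2⟩ | ⟨h1, h2⟩
  · obtain ⟨M, i₀, a1, a2⟩ := top_fam (p := fun i => Q (Sum.inl i)) h2
    by_cases ht : (Q (Sum.inr false)).totalDegree ≤ M
    · filter_upwards [ae_sum sNull hd (p := fun i => Q (Sum.inl i)) a2] with z hz
      obtain ⟨a, ha⟩ := top a1 hz
      refine ⟨0, 0, M, a, ha.mono fun j hj => Or.inl ⟨rfl, h1, hj, ?_⟩⟩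
      rintro (i | _ | _)
      · exact a1 i
      · exact ht
      · have e : Q (Sum.inr true) = 0 := h1
        rw [e]
        simp
    · have hq : Q (Sum.inr false) ≠ 0 := fun e => by rw [e] at ht; simp at ht
      filter_upwards [ae_sum sNull hd (p := fun i => Q (Sum.inl i)) a2,
        ae_co sNull hd (top_ne hq)] with z hz hy
      obtain ⟨a, ha⟩ := top a1 hz
      exact ⟨2, _, M, a, (ha.and (ev_one_le hy)).mono fun j hj => Or.inr (Or.inr (Or.inl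
        ⟨rfl, h1, hj.1, not_le.1 ht, degL_of_totalDegree le_rfl _, hj.2⟩))⟩
  have hq := top_ne h1
  have hg := fun w => gq (w := w) h2
  set m := (Q sI).totalDegree with hm
  by_cases h : ∀ i, (Q (Sum.inl i)).totalDegree ≤ m + 1
  swap
  · push Not at h
    obtain ⟨i, hi⟩ := h
    obtain ⟨k, i₀, a1, a2⟩ := top_fam (p := fun i => Q (Sum.inl i))
      ⟨i, fun e => by rw [e] at hi; simp at hi⟩
    filter_upwards [ae_sum sNull hd (p := fun i => Q (Sum.inl i)) a2, ae_co sNull hd hq]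
      with z hz hy
    obtain ⟨a, ha⟩ := top a1 hz
    exact ⟨3, m, k, a, ((hg _ hy).and ha).mono fun j hj => Or.inr (Or.inr (Or.inr (Or.inl
      ⟨rfl, hj.1, hj.2, Or.inl (hi.trans_le (a1 i))⟩)))⟩
  set H : MP d := (∑ i, MvPolynomial.X i ^ 2) * MvPolynomial.homogeneousComponent m (Q sI) ^ 2 -
    ∑ i, MvPolynomial.homogeneousComponent (m + 1) (Q (Sum.inl i)) ^ 2 with hH
  have eH : ∀ z, ev H z = ‖z‖ ^ 2 * co (Q sI) z m ^ 2 - ∑ i, co (Q (Sum.inl i)) z (m + 1) ^ 2 := by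
    intro z
    simp only [hH, XI.ev_sub, XI.ev_mul, XI.ev_sum, XI.ev_pow, XI.ev_X, co_eq_ev,
      EuclideanSpace.real_norm_sq_eq]
  have e : ∀ a : E d, ‖a‖ ≠ 0 →
      co (Q sI) (‖a‖⁻¹ • a) m ^ 2 - ∑ i, co (Q (Sum.inl i)) (‖a‖⁻¹ • a) (m + 1) ^ 2 =
        (‖a‖⁻¹ ^ (m + 1)) ^ 2 * ev H a := by
    intro a hb
    have hb' : ‖a‖⁻¹ * ‖a‖ = 1 := inv_mul_cancel₀ hb
    simp only [eH, co_smul, mul_pow, ← Finset.mul_sum]
    linear_combination (-((‖a‖⁻¹ ^ m) ^ 2 * co (Q sI) a m ^ 2 * (‖a‖⁻¹ * ‖a‖ + 1))) * hb'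
  by_cases h0 : H = 0
  · obtain ⟨α, a1, a2⟩ := top_coeff h1
    have hI : Iso2 Q m := by
      refine ⟨h2, le_rfl, h, fun z => ?_⟩
      have := eH z
      rw [h0, XI.ev_zero] at this
      linarith
    filter_upwards [ae_ne sNull hd, ae_co sNull hd hq] with z hb hc
    have e1 := e z hb
    rw [h0, XI.ev_zero, mul_zero] at e1
    obtain ⟨a, ha⟩ := top (w := ‖z‖⁻¹ • z) h (by linarith)
    exact ⟨4, m, m + 1, a, (((hg _ hc).and ha).and (ev_one_le (sq_pos_of_ne_zero a2))).mono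
      fun j hj => Or.inr (Or.inr (Or.inr (Or.inr
        ⟨rfl, hj.1.1, hj.1.2, rfl, by linarith, m, hI, α, a1, hj.2⟩)))⟩
  · filter_upwards [ae_ev sNull h0, ae_ne sNull hd, ae_co sNull hd hq] with z hz hb hc
    have hne : co (Q sI) (‖z‖⁻¹ • z) m ^ 2 -
        ∑ i, co (Q (Sum.inl i)) (‖z‖⁻¹ • z) (m + 1) ^ 2 ≠ 0 := by
      rw [e z hb]
      positivity
    rcases lt_or_gt_of_ne hne with hl | hl
    · obtain ⟨a, ha⟩ := top (w := ‖z‖⁻¹ • z) h (by linarith)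
      have hp : 0 < ∑ i, co (Q (Sum.inl i)) (‖z‖⁻¹ • z) (m + 1) ^ 2 -
          co (Q sI) (‖z‖⁻¹ • z) m ^ 2 := by linarith
      exact ⟨3, m, m + 1, a, (((hg _ hc).and ha).and (ev_one_le hp)).mono fun j hj =>
        Or.inr (Or.inr (Or.inr (Or.inl ⟨rfl, hj.1.1, hj.1.2, Or.inr ⟨rfl, hj.2⟩⟩)))⟩
    · exact ⟨1, m, 0, sI, ((hg _ hc).and (ev_one_le hl)).mono fun j hj =>
        Or.inr (Or.inl ⟨rfl, hj.1, le_rfl, h, hj.2⟩)⟩

end Pool.Agent.MP_66cee2_co.F
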