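import Pool.Agent.MP_66cee2_co.F.Spec
import Pool.Agent.MP_66cee2_co.XI.Kit
import Pool.Agent.MP_66cee2_co.XI.One

/-
Two general members on an edge.
-/

namespace Pool.Agent.MP_66cee2_co.F

open Pool.Agent.MP_66cee2_co.X Pool.Agent.MP_66cee2_co.XI Pool.Agent.MP_66cee2_co.D

namespace GGx

variable {d n : ℕ}

theorem pos_of {j : ℕ} {a : ℝ} (h : 1 ≤ (j : ℝ) * a) : 0 < a := by
  by_contra hc
  have h1 : (j : ℝ) * a ≤ 0 := mul_nonpos_of_nonneg_of_nonpos (Nat.cast_nonneg j) (not_lt.mp hc)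
  linarith

theorem sq_pos {j : ℕ} {w : E d} {m : ℕ} {Q : Ix n → MP d} (h : Gq j w m Q) :
    0 < co (Q sI) w m ^ 2 := pos_of h.2.2

theorem co_ne {j : ℕ} {w : E d} {m : ℕ} {Q : Ix n → MP d} (h : Gq j w m Q) :
    co (Q sI) w m ≠ 0 := fun e => by
  have := sq_pos h
  rw [e] at this
  simp at this

theorem sum_sl (w : E d) (m : ℕ) (Q : Ix n → MP d) :
    ∑ i, sl w m Q i ^ 2 = (∑ i, co (Q (Sum.inl i)) w (m + 1) ^ 2) / co (Q sI) w m ^ 2 := by
  rw [Finset.sum_div]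
  exact Finset.sum_congr rfl fun i _ => by rw [sl, slp, div_pow, co, co]

theorem key {Q Q' : Ix n → MP d} {w : E d} {j m m' : ℕ} (hw : ‖w‖ = 1) (h : EdgeId Q Q')
    (g : Gq j w m Q) (g' : Gq j w m' Q') :
    (∀ i, DegL (Q (Sum.inl i)) w (m + 1)) ∧ (∀ i, sl w m Q i = sl w m' Q' i) ∧
      ∑ i, (os w m Q i - os w m' Q' i) ^ 2 = 1 - ∑ i, sl w m Q i ^ 2 := by
  have c := co_ne g
  have c' := co_ne g'
  have h0 : ln (Q' sI) 0 w ≠ 0 := fun e => c' (by rw [co, e, Polynomial.coeff_zero])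
  have hs := sOne n _ _ _ _ (nbr_of_edge h g.1 g'.1 0 hw) h0 m (degL_iff.1 g.2.1) c
  have ht := hs.2 m' (degL_iff.1 g'.2.1) c'
  exact ⟨fun i => degL_iff.2 (hs.1 i), ht.1, ht.2⟩

theorem short {Q : Ix n → MP d} {w : E d} {j m : ℕ} (g : G1 j w m Q) :
    ∑ i, sl w m Q i ^ 2 < 1 := by
  rw [sum_sl, div_lt_one (sq_pos g.1)]
  have := pos_of g.2.2.2
  linarith

theorem lz_val (w : E d) (m m' : ℕ) (Q Q' : Ix n → MP d) :
    lz (valG w m Q) (valG w m' Q') = 1 - ∑ i, (os w m Q i - os w m' Q' i) ^ 2 -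
      ((∑ i, sl w m Q i ^ 2) + ∑ i, sl w m' Q' i ^ 2) / 2 := by
  have e : ∑ i, (os w m Q i - os w m' Q' i) ^ 2 = ∑ i, os w m Q i ^ 2 + ∑ i, os w m' Q' i ^ 2 -
      2 * ∑ i, os w m Q i * os w m' Q' i := by
    rw [Finset.mul_sum, ← Finset.sum_add_distrib, ← Finset.sum_sub_distrib]
    exact Finset.sum_congr rfl fun i _ => by ring
  rw [lz_eq, e]
  simp only [valG, Sum.elim_inl, Sum.elim_inr, cond_true, cond_false]
  ring

end GGx

theorem sGG : SGG := by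
  refine ⟨fun d n Q Q' w j m M m' a hw h g' => ⟨fun g => ?_, fun g1 g => ?_, fun g => ?_⟩,
    fun d n Q w j m g => ?_⟩
  · obtain ⟨g0, ⟨⟨i, rfl⟩, -, ht⟩, hc⟩ := g
    obtain ⟨k1, -, k3⟩ := GGx.key hw h g0 g'
    rcases hc with hc | ⟨-, hc⟩
    · have := GGx.pos_of ht
      rw [k1 i M (by omega)] at this
      simp at this
    · have h1 := GGx.pos_of hc
      have h2 : 1 < ∑ i, sl w m Q i ^ 2 := by
        rw [GGx.sum_sl, one_lt_div (GGx.sq_pos g0)]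
        linarith
      have h3 : 0 ≤ ∑ i, (os w m Q i - os w m' Q' i) ^ 2 :=
        Finset.sum_nonneg fun i _ => sq_nonneg _
      linarith
  · obtain ⟨g0, -, -, hc, -⟩ := g
    obtain ⟨-, k2, -⟩ := GGx.key hw h g0 g'
    have h1 := GGx.short g1
    have h2 : 1 ≤ ∑ i, sl w m Q i ^ 2 := by
      rw [GGx.sum_sl, one_le_div (GGx.sq_pos g0)]
      exact hc
    rw [Finset.sum_congr rfl fun i _ => congrArg (· ^ 2) (k2 i)] at h2
    linarith
  · obtain ⟨-, k2, k3⟩ := GGx.key hw h g.1 g'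
    have h1 : ∑ i, sl w m Q i ^ 2 = ∑ i, sl w m' Q' i ^ 2 :=
      Finset.sum_congr rfl fun i _ => by rw [k2 i]
    rw [GGx.lz_val, k3, ← h1]
    ring
  · have h1 := GGx.short g
    rw [GGx.lz_val]
    simp only [sub_self, ne_eq, OfNat.ofNat_ne_zero, not_false_eq_true, zero_pow,
      Finset.sum_const_zero]
    linarith

end Pool.Agent.MP_66cee2_co.F
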