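import Pool.Agent.MP_66cee2_co.F.Spec
import Pool.Agent.MP_66cee2_co.D.Vone
import Pool.Agent.MP_66cee2_co.D.Vf
import Pool.Agent.MP_66cee2_co.D.PvC

/-
Countably many classes give one measurable flat field.
-/

namespace Pool.Agent.MP_66cee2_co.F

open MeasureTheory Set Filter Metric Topology Matrix Pool.Agent.MP_66cee2_co.X
  Pool.Agent.MP_66cee2_co.XI Pool.Agent.MP_66cee2_co.D
open scoped ENNReal RealInnerProductSpace

namespace Gluex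

variable {d n : ℕ}

/-- admissible jets at a point, at some level. -/
def G (u : E d → Ix n → ℝ) (D : ℕ) (Φ : ℕ → (Ix n → MP d) → Prop) (x : E d)
    (Q : Ix n → MP d) : Prop :=
  ∃ j : ℕ, 1 ≤ j ∧ ‖x‖ ≤ j ∧ Adm u D (2 * D + 1) j x Q ∧ Φ j Q

theorem uniq {u : E d → Ix n → ℝ} {D : ℕ} {Φ : ℕ → (Ix n → MP d) → Prop}
    {v : (Ix n → MP d) → Ix n → ℝ} (hp : ∀ j j' Q, j ≤ j' → Φ j Q → Φ j' Q) (hH : Est u D Φ v)
    {x : E d} {Q Q' : Ix n → MP d} (h : G u D Φ x Q) (h' : G u D Φ x Q') : v Q = v Q' := by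
  obtain ⟨j, hj, hx, hA, hP⟩ := h
  obtain ⟨j', hj', -, hA', hP'⟩ := h'
  have h1 : 1 ≤ max j j' := le_trans hj (le_max_left _ _)
  obtain ⟨C, r, -, hr, hE⟩ := hH 1 (max j j') le_rfl h1
  have hx' : ‖x‖ ≤ ((max j j' : ℕ) : ℝ) :=
    le_trans hx (Nat.cast_le.2 (le_max_left _ _))
  have h2 := hE (2 * D + 1) le_rfl x x Q Q'
    (PvCx.adm u _ _ _ _ _ _ x Q le_rfl le_rfl hj (le_max_left _ _) hA)
    (PvCx.adm u _ _ _ _ _ _ x Q' le_rfl le_rfl hj' (le_max_right _ _) hA') hx'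
    (by rw [sub_self, norm_zero]; exact hr.le)
    (hp _ _ Q (le_max_left _ _) hP) (hp _ _ Q' (le_max_right _ _) hP')
  rw [sub_self x, norm_zero, pow_one, mul_zero] at h2
  exact sub_eq_zero.1 (norm_le_zero_iff.1 h2)

/-- the field on one family of pieces. -/
theorem one {u : E d → Ix n → ℝ} {D : ℕ} {Φ : ℕ → (Ix n → MP d) → Prop}
    {v : (Ix n → MP d) → Ix n → ℝ} (hc : ∀ K j, IsClosed (Pc u D K j (Φ j)))
    (hp : ∀ j j' Q, j ≤ j' → Φ j Q → Φ j' Q) (hH : Est u D Φ v) :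
    ∃ V : E d → Ix n → ℝ, Measurable V ∧ ∀ (K j : ℕ) x Q, 2 * D + 1 ≤ K → 1 ≤ j → ‖x‖ ≤ j →
      Adm u D K j x Q → Φ j Q → V x = v Q := by
  classical
  let W : E d → Ix n → ℝ := fun x => if h : ∃ Q, G u D Φ x Q then v h.choose else 0
  have W_eq : ∀ {x Q}, G u D Φ x Q → W x = v Q := fun {x Q} h => by
    have h1 : ∃ Q, G u D Φ x Q := ⟨Q, h⟩
    simp only [W]
    rw [dif_pos h1]
    exact uniq hp hH h1.choose_spec h
  refine ⟨W, ?_, ?_⟩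
  · refine Vonex.meas_of_pieces (fun j => Pc u D (2 * D + 1) (j + 1) (Φ (j + 1)))
      (fun j => hc (2 * D + 1) (j + 1)) _ (fun j => ?_) (fun x hx => ?_)
    · have h1 : 1 ≤ j + 1 := Nat.le_add_left 1 j
      obtain ⟨C, r, hC0, hr, hE⟩ := hH 1 (j + 1) le_rfl h1
      refine Vonex.contOn_of_est _ _ C r hC0 hr ?_
      rintro x ⟨hx, Q, hA, hP⟩ y ⟨hy, Q', hA', hP'⟩ hxy
      have h2 := hE (2 * D + 1) le_rfl x y Q Q' hA hA' hx hxy hP hP'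
      rw [pow_one] at h2
      rw [W_eq ⟨j + 1, h1, hx, hA, hP⟩, W_eq ⟨j + 1, h1, hy, hA', hP'⟩]
      exact h2
    · refine dif_neg ?_
      rintro ⟨Q, j, hj, hx1, hA, hP⟩
      obtain ⟨k, rfl⟩ : ∃ k, j = k + 1 := ⟨j - 1, by omega⟩
      exact hx (mem_iUnion.2 ⟨k, hx1, Q, hA, hP⟩)
  · intro K j x Q hK hj hx hA hP
    exact W_eq ⟨j, hj, hx, PvCx.adm u _ _ _ _ _ _ x Q le_rfl hK hj le_rfl hA, hP⟩

end Gluex

open Gluex in
theorem sGlue : SGlue := by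
  intro d n u I _ _ D Φ v hcl hmono hest hae
  choose W hWm hW using fun i : I => one (hcl i) (hmono i) (hest i)
  obtain ⟨g, hg, hgS⟩ := Vfx.sel (fun i : I =>
      ⋂ K : ℕ, ⋃ j : ℕ, ⋃ _ : 1 ≤ j, Pc u (D i) K j (Φ i j))
    fun i => MeasurableSet.iInter fun K => MeasurableSet.iUnion fun j =>
      MeasurableSet.iUnion fun _ => (hcl _ _ _).measurableSet
  have hin : ∀ x, (∃ i, ∀ K, ∃ j, 1 ≤ j ∧ x ∈ Pc u (D i) K j (Φ i j)) → ∀ K, ∃ j, 1 ≤ j ∧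
      x ∈ Pc u (D (g x)) K j (Φ (g x) j) := by
    rintro x ⟨i, h⟩ K
    have := hgS x ⟨i, mem_iInter.2 fun K => by
      obtain ⟨j, hj, hx⟩ := h K
      exact mem_iUnion₂.2 ⟨j, hj, hx⟩⟩
    obtain ⟨j, hj, hx⟩ := mem_iUnion₂.1 (mem_iInter.1 this K)
    exact ⟨j, hj, hx⟩
  refine ⟨fun x => W (g x) x, Vfx.glue hg hWm, ?_, ?_⟩
  · filter_upwards [hae] with x hx
    refine ⟨g x, fun K => ?_⟩
    obtain ⟨j, hj, hxn, Q, hQ, hP⟩ := hin x hx (max K (2 * D (g x) + 1))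
    exact ⟨j, Q, hj, hxn, PvCx.adm u _ _ _ _ _ _ x Q le_rfl (le_max_left _ _) hj le_rfl hQ, hP,
      hW (g x) _ j x Q (le_max_right _ _) hj hxn hQ hP⟩
  · have hd : ∀ᵐ x : E d, ∀ (i : I) (K j : ℕ),
        x ∈ {y | g y = i} ∩ Pc u (D i) K j (Φ i j) →
          Small fun _ => {η | x + η ∉ {y | g y = i} ∩ Pc u (D i) K j (Φ i j)} :=
      ae_all_iff.2 fun i => ae_all_iff.2 fun K => ae_all_iff.2 fun j =>
        app_dens d _ ((hg i).inter (hcl _ _ _).measurableSet)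
    filter_upwards [hae, hd] with x hQ hx K
    obtain ⟨j, hj, hxP⟩ := hin x hQ (2 * D (g x) + (K + 1))
    obtain ⟨C, r, hC0, hr, hb⟩ := hest (g x) (K + 1) j (by omega) hj
    refine ⟨C, small_iff.2 ((small_iff.1 (hx (g x) _ j ⟨rfl, hxP⟩)).mono ?_)⟩
    filter_upwards [ev_pos, ev_lt hr, ev_lt one_pos] with τ h0 h1 h2 η hη hbad hmem
    obtain ⟨hxn, Q, hQa, hQp⟩ := hxP
    obtain ⟨hgy, hyn, Q', hQa', hQp'⟩ := hmem
    have hgy' : g (x + η) = g x := hgy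
    rw [one_mul, mem_ball_zero_iff] at hη
    have e1 := hW (g x) _ j x Q (by omega) hj hxn hQa hQp
    have e2 := hW (g x) _ j (x + η) Q' (by omega) hj hyn hQa' hQp'
    have hn : ‖x - (x + η)‖ = ‖η‖ := by rw [sub_add_cancel_left, norm_neg]
    have h3 := hb _ le_rfl x (x + η) Q Q' hQa hQa' hxn (by rw [hn]; linarith) hQp hQp'
    rw [hn, ← e1, ← e2, norm_sub_rev] at h3
    have h4 : ‖η‖ ^ (K + 1) ≤ τ ^ K :=
      (pow_le_pow_left₀ (norm_nonneg _) hη.le _).trans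
        (pow_le_pow_of_le_one h0.le h2.le (Nat.le_succ K))
    have h5 : C * τ ^ K < ‖W (g (x + η)) (x + η) - W (g x) x‖ := hbad
    rw [hgy'] at h5
    nlinarith [mul_le_mul_of_nonneg_left h4 hC0]

end Pool.Agent.MP_66cee2_co.F
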