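import Pool.Agent.MP_66cee2_co.F.Spec
import Pool.Agent.MP_66cee2_co.XI.DatE

/-
Row Orth: the values are positive and orthogonal on edges.
-/

namespace Pool.Agent.MP_66cee2_co.F

open Set Pool.Agent.MP_66cee2_co.X Pool.Agent.MP_66cee2_co.XI Pool.Agent.MP_66cee2_co.D

namespace Orthx

variable {d n : ℕ}

theorem lz_sm (a b : ℝ) (u v : Ix n → ℝ) : lz (a • u) (b • v) = a * b * lz u v := by
  simp only [lz_eq, Pi.smul_apply, smul_eq_mul, mul_add, Finset.mul_sum]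
  congr 1
  · congr 1
    · exact Finset.sum_congr rfl fun i _ => by ring
    · ring
  · ring

theorem ne_of {S : ℝ} {j : ℕ} (h : 1 ≤ (j : ℝ) * S ^ 2) : S ≠ 0 := by
  rintro rfl
  norm_num at h

theorem co_zero (w : E d) (k : ℕ) : co (0 : MP d) w k = 0 := by
  simp [co, ln]

/-- a vector that carries the top coefficients and has no last coordinate. -/
def Car (w : E d) (M : ℕ) (Q : Ix n → MP d) (r : Ix n → ℝ) : Prop :=
  r sI = 0 ∧ ∀ i, r (Sum.inl i) = co (Q (Sum.inl i)) w M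

theorem car_E {w : E d} {M : ℕ} {Q : Ix n → MP d} (h : Q sI = 0) : Car w M Q (rawE w M Q) :=
  ⟨by simp only [rawE, h, co_zero], fun _ => rfl⟩

theorem car_T (w : E d) (M : ℕ) (Q : Ix n → MP d) : Car w M Q (rawT w M Q) :=
  ⟨rfl, fun _ => rfl⟩

theorem lz_car {w : E d} {M M' : ℕ} {Q Q' : Ix n → MP d} {r r' : Ix n → ℝ} (h : Car w M Q r)
    (h' : Car w M' Q' r') :
    lz r r' = 2 * ∑ i, co (Q (Sum.inl i)) w M * co (Q' (Sum.inl i)) w M' := by
  have e : r (Sum.inr true) = 0 := h.1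
  have e' : r' (Sum.inr true) = 0 := h'.1
  rw [lz_eq, e, e']
  simp only [h.2, h'.2, zero_mul, mul_zero, add_zero]

theorem pos_car {w : E d} {M j : ℕ} {Q : Ix n → MP d} {r : Ix n → ℝ} {a : Ix n}
    (h : Car w M Q r) (hT : Top j w M a Q) : 0 < lz (nv a r) (nv a r) := by
  obtain ⟨⟨i, rfl⟩, -, h3⟩ := hT
  have h4 := ne_of h3
  have h5 : 0 < ∑ l, co (Q (Sum.inl l)) w M * co (Q (Sum.inl l)) w M :=
    Finset.sum_pos' (fun l _ => mul_self_nonneg _)
      ⟨i, Finset.mem_univ _, mul_self_pos.2 h4⟩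
  have h6 : 0 < (r (Sum.inl i))⁻¹ * (r (Sum.inl i))⁻¹ :=
    mul_self_pos.2 (inv_ne_zero (by rw [h.2]; exact h4))
  unfold nv
  rw [lz_sm, lz_car h h]
  exact mul_pos h6 (mul_pos two_pos h5)

theorem zero_car {w : E d} {M M' : ℕ} {Q Q' : Ix n → MP d} {r r' : Ix n → ℝ} (a a' : Ix n)
    (h : Car w M Q r) (h' : Car w M' Q' r')
    (h0 : ∑ i, co (Q (Sum.inl i)) w M * co (Q' (Sum.inl i)) w M' = 0) :
    lz (nv a r) (nv a' r') = 0 := by
  unfold nv
  rw [lz_sm, lz_car h h', h0]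
  ring

/-- outside the class with a short slope the value is a normalised top vector. -/
theorem shape {c : Fin 5} {m M j : ℕ} {a : Ix n} {w : E d} {Q : Ix n → MP d}
    (h : Ph5 c m M a j w Q) : (c = 1 ∧ G1 j w m Q ∧ val c m M a w Q = valG w m Q) ∨
      ∃ r, Car w M Q r ∧ val c m M a w Q = nv a r ∧ Top j w M a Q ∧
        (Q sI = 0 ∨ G2 j w m M a Q ∨ G3 j w m M a Q) := by
  rcases h with ⟨rfl, h⟩ | ⟨rfl, h⟩ | ⟨rfl, h⟩ | ⟨rfl, h⟩ | ⟨rfl, h⟩
  · exact Or.inr ⟨_, car_E h.1, by simp [val], h.2.1, Or.inl h.1⟩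
  · exact Or.inl ⟨rfl, h, by simp [val]⟩
  · exact Or.inr ⟨_, car_T w M Q, by simp [val], h.2.1, Or.inl h.1⟩
  · exact Or.inr ⟨_, car_T w M Q, by simp [val], h.2.1, Or.inr (Or.inl h)⟩
  · exact Or.inr ⟨_, car_T w M Q, by simp [val], h.2.1, Or.inr (Or.inr h)⟩

theorem gen_of {m M j : ℕ} {a : Ix n} {w : E d} {Q : Ix n → MP d}
    (h : G2 j w m M a Q ∨ G3 j w m M a Q) : Gq j w m Q ∧ m < M := by
  rcases h with ⟨h1, -, h3⟩ | ⟨h1, -, h3, -⟩
  · refine ⟨h1, ?_⟩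
    rcases h3 with h3 | ⟨h3, -⟩ <;> omega
  · exact ⟨h1, by omega⟩

/-- any class against the class with a short slope. -/
theorem half (h2 : SEG) (h3 : SGG) {Q Q' : Ix n → MP d} {w : E d} {j : ℕ} {c : Fin 5}
    {m M m' : ℕ} {a : Ix n} (hd : 1 ≤ d) (hw : ‖w‖ = 1) (h : Ph5 c m M a j w Q)
    (h' : G1 j w m' Q') (hE : EdgeId Q Q') : lz (val c m M a w Q) (valG w m' Q') = 0 := by
  have k2 := h2 d n Q Q' w j m M m' a hd hw hE h'
  have k3 := h3.1 d n Q Q' w j m M m' a hw hE h'.1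
  rcases h with ⟨rfl, h⟩ | ⟨rfl, h⟩ | ⟨rfl, h⟩ | ⟨rfl, h⟩ | ⟨rfl, h⟩
  · have e : val (0 : Fin 5) m M a w Q = (rawE w M Q a)⁻¹ • rawE w M Q := by simp [val, nv]
    have e2 := lz_sm (rawE w M Q a)⁻¹ 1 (rawE w M Q) (valG w m' Q')
    rw [one_smul, k2.1 h, mul_zero] at e2
    rw [e, e2]
  · have e : val (1 : Fin 5) m M a w Q = valG w m Q := by simp [val]
    rw [e]
    exact k3.2.2 h
  · exact absurd h k2.2
  · exact absurd h k3.1
  · exact absurd h (k3.2.1 h')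

end Orthx

open Orthx in
theorem sOrth : SET → SEG → SGG → SOrth := by
  intro h1 h2 h3 d n Q Q' w j c c' m M m' M' a a' hd hw h
  refine ⟨?_, fun h' hE hC => ?_⟩
  · rcases shape h with ⟨-, g, e⟩ | ⟨r, hr, e, hT, -⟩
    · rw [e]
      exact h3.2 d n Q w j m g
    · rw [e]
      exact pos_car hr hT
  rcases shape h' with ⟨-, g', e'⟩ | ⟨r', hr', e', hT', t'⟩
  · rw [e']
    exact half h2 h3 hd hw h g' hE
  rcases shape h with ⟨-, g, e⟩ | ⟨r, hr, e, hT, t⟩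
  · rw [e, lz_comm]
    exact half h2 h3 hd hw h' g hE.symm
  rw [e, e']
  refine zero_car a a' hr hr' ?_
  rcases t with t | t
  · rcases t' with t' | t'
    · exact DatEA.top_orth hE t t' hw hT.2.1 hT'.2.1
    · obtain ⟨q, hm⟩ := gen_of t'
      exact h1 d n Q Q' w M m' M' hw hE t hT.2.1 q.2.1 (ne_of q.2.2) hT'.2.1 hm
  · obtain ⟨q, hm⟩ := gen_of t
    rcases t' with t' | t'
    · have k := h1 d n Q' Q w M' m M hw hE.symm t' hT'.2.1 q.2.1 (ne_of q.2.2) hT.2.1 hm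
      rw [← k]
      exact Finset.sum_congr rfl fun i _ => mul_comm _ _
    · obtain ⟨q', -⟩ := gen_of t'
      rcases t with t | t
      · exact absurd t (h3.1 d n Q Q' w j m M m' a hw hE q').1
      · rcases t' with t' | t'
        · exact absurd t' (h3.1 d n Q' Q w j m' M' m a' hw hE.symm q).1
        · exact absurd ⟨t.2.2.2.2, t'.2.2.2.2⟩ hC

end Pool.Agent.MP_66cee2_co.F
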