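import Pool.Agent.MP_66cee2_co.F.Case2
import Pool.Agent.MP_66cee2_co.F.Clo5
import Pool.Agent.MP_66cee2_co.F.Dich
import Pool.Agent.MP_66cee2_co.F.Dir
import Pool.Agent.MP_66cee2_co.F.EG
import Pool.Agent.MP_66cee2_co.F.ET
import Pool.Agent.MP_66cee2_co.F.EstG
import Pool.Agent.MP_66cee2_co.F.EstT
import Pool.Agent.MP_66cee2_co.F.Exh5
import Pool.Agent.MP_66cee2_co.F.GG
import Pool.Agent.MP_66cee2_co.F.Glue
import Pool.Agent.MP_66cee2_co.F.Orth
import Pool.Agent.MP_66cee2_co.D.AllX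
import Pool.Agent.MP_66cee2_co.D.Bi
import Pool.Agent.MP_66cee2_co.D.Div
import Pool.Agent.MP_66cee2_co.D.Drop
import Pool.Agent.MP_66cee2_co.D.Fam
import Pool.Agent.MP_66cee2_co.D.Jt
import Pool.Agent.MP_66cee2_co.D.SJ3

/-
The dichotomy for every target dimension, assembled: no family, no exotic map.
-/

namespace Pool.Agent.MP_66cee2_co.F

open Pool.Agent.MP_66cee2_co.X Pool.Agent.MP_66cee2_co.XI Pool.Agent.MP_66cee2_co.D

theorem sDichN : SDichN :=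
  sDichN_of (sEdge (sRem XI.sNull) XI.sCoef (XI.sSig XI.sNull)) sGlue sEstT sEstG sClo5
    (sDir sJt sClo5 sExh5) (sOrth sET (sEG (sDrop D.sDiv sBi) sET) sGG) sCase2

theorem allIso_noFam (d n : ℕ) (hd : 3 ≤ d) (h : ∀ O : (Ix n → ℝ) → Set (E d), ¬ Fam O) :
    XT.AllIso d n :=
  allIso_of_noFam sTrAll sJ3 sDichN D.sFam d n hd h

end Pool.Agent.MP_66cee2_co.F
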