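import Pool.Agent.MP_66cee2_co.D.SpecA

/-
The dichotomy for every target dimension: a flat field read from the jets at infinity.
-/

namespace Pool.Agent.MP_66cee2_co.F

open MeasureTheory Set Filter Metric Topology Matrix Pool.Agent.MP_66cee2_co.X
  Pool.Agent.MP_66cee2_co.XI Pool.Agent.MP_66cee2_co.D
open scoped ENNReal RealInnerProductSpace

section defs

variable {d n : ℕ}

/-- the coefficient of `t ^ M` along `t w`. -/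
noncomputable def rawE (w : E d) (M : ℕ) (Q : Ix n → MP d) : Ix n → ℝ := fun b => co (Q b) w M

/-- the Euclidean part of the coefficient of `t ^ M` along `t w`. -/
noncomputable def rawT (w : E d) (M : ℕ) (Q : Ix n → MP d) : Ix n → ℝ :=
  Sum.elim (fun i => co (Q (Sum.inl i)) w M) fun _ => 0

/-- the slope. -/
noncomputable def sl (w : E d) (m : ℕ) (Q : Ix n → MP d) (i : Fin n) : ℝ :=
  slp (ln (Q (Sum.inl i)) 0 w) (ln (Q sI) 0 w) m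

/-- the offset. -/
noncomputable def os (w : E d) (m : ℕ) (Q : Ix n → MP d) (i : Fin n) : ℝ :=
  ofs (ln (Q (Sum.inl i)) 0 w) (ln (Q sI) 0 w) m

/-- the lift of the offset, corrected by the slope. -/
noncomputable def valG (w : E d) (m : ℕ) (Q : Ix n → MP d) : Ix n → ℝ :=
  Sum.elim (os w m Q) fun b =>
    cond b 1 (1 / 2 - ∑ i, os w m Q i ^ 2 - (∑ i, sl w m Q i ^ 2) / 2)

/-- the Euclidean part has degree `M` along `w`. -/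
def Top (j : ℕ) (w : E d) (M : ℕ) (a : Ix n) (Q : Ix n → MP d) : Prop :=
  (∃ i, a = Sum.inl i) ∧ (∀ i, DegL (Q (Sum.inl i)) w M) ∧ 1 ≤ (j : ℝ) * co (Q a) w M ^ 2

/-- general type, denominator of degree `m` along `w`. -/
def Gq (j : ℕ) (w : E d) (m : ℕ) (Q : Ix n → MP d) : Prop :=
  GC Q ∧ DegL (Q sI) w m ∧ 1 ≤ (j : ℝ) * co (Q sI) w m ^ 2

def E1 (j : ℕ) (w : E d) (M : ℕ) (a : Ix n) (Q : Ix n → MP d) : Prop :=
  Q sI = 0 ∧ Top j w M a Q ∧ ∀ b, (Q b).totalDegree ≤ M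

def E2 (j : ℕ) (w : E d) (m M : ℕ) (a : Ix n) (Q : Ix n → MP d) : Prop :=
  Q sI = 0 ∧ Top j w M a Q ∧ M < m ∧ DegL (Q (Sum.inr false)) w m ∧
    1 ≤ (j : ℝ) * co (Q (Sum.inr false)) w m ^ 2

def G1 (j : ℕ) (w : E d) (m : ℕ) (Q : Ix n → MP d) : Prop :=
  Gq j w m Q ∧ (Q sI).totalDegree ≤ m ∧ (∀ i, (Q (Sum.inl i)).totalDegree ≤ m + 1) ∧
    1 ≤ (j : ℝ) * (co (Q sI) w m ^ 2 - ∑ i, co (Q (Sum.inl i)) w (m + 1) ^ 2)

def G2 (j : ℕ) (w : E d) (m M : ℕ) (a : Ix n) (Q : Ix n → MP d) : Prop :=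
  Gq j w m Q ∧ Top j w M a Q ∧ (m + 2 ≤ M ∨ (M = m + 1 ∧
    1 ≤ (j : ℝ) * (∑ i, co (Q (Sum.inl i)) w (m + 1) ^ 2 - co (Q sI) w m ^ 2)))

def G3 (j : ℕ) (w : E d) (m M : ℕ) (a : Ix n) (Q : Ix n → MP d) : Prop :=
  Gq j w m Q ∧ Top j w M a Q ∧ M = m + 1 ∧
    co (Q sI) w m ^ 2 ≤ ∑ i, co (Q (Sum.inl i)) w (m + 1) ^ 2 ∧ Cl2 j Q

/-- the five classes. -/
def Ph5 (c : Fin 5) (m M : ℕ) (a : Ix n) (j : ℕ) (w : E d) (Q : Ix n → MP d) : Prop :=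
  (c = 0 ∧ E1 j w M a Q) ∨ (c = 1 ∧ G1 j w m Q) ∨ (c = 2 ∧ E2 j w m M a Q) ∨
    (c = 3 ∧ G2 j w m M a Q) ∨ (c = 4 ∧ G3 j w m M a Q)

/-- the value of the field. -/
noncomputable def val (c : Fin 5) (m M : ℕ) (a : Ix n) (w : E d) (Q : Ix n → MP d) : Ix n → ℝ :=
  if c = 0 then nv a (rawE w M Q) else if c = 1 then valG w m Q else nv a (rawT w M Q)

/-- the estimate on the pieces of a class. -/
def Est (u : E d → Ix n → ℝ) (D : ℕ) (Φ : ℕ → (Ix n → MP d) → Prop)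
    (v : (Ix n → MP d) → Ix n → ℝ) : Prop :=
  ∀ p j : ℕ, 1 ≤ p → 1 ≤ j → ∃ C r : ℝ, 0 ≤ C ∧ 0 < r ∧
    ∀ K, 2 * D + p ≤ K → ∀ x y Q Q', Adm u D K j x Q → Adm u D K j y Q' → ‖x‖ ≤ j →
      ‖x - y‖ ≤ r → Φ j Q → Φ j Q' → ‖v Q - v Q'‖ ≤ C * ‖x - y‖ ^ p

theorem Est.mono {u : E d → Ix n → ℝ} {D : ℕ} {Φ Ψ : ℕ → (Ix n → MP d) → Prop}
    {v : (Ix n → MP d) → Ix n → ℝ} (h : Est u D Φ v) (hs : ∀ j Q, Ψ j Q → Φ j Q) :
    Est u D Ψ v := fun p j hp hj => by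
  obtain ⟨C, r, h1, h2, h3⟩ := h p j hp hj
  exact ⟨C, r, h1, h2, fun K hK x y Q Q' a1 a2 a3 a4 a5 a6 =>
    h3 K hK x y Q Q' a1 a2 a3 a4 (hs _ _ a5) (hs _ _ a6)⟩

end defs

/-- row Glue: countably many classes give one measurable flat field. -/
def SGlue : Prop :=
  ∀ (d n : ℕ) (u : E d → Ix n → ℝ) (I : Type) [Countable I] [Nonempty I] (D : I → ℕ)
    (Φ : I → ℕ → (Ix n → MP d) → Prop) (v : I → (Ix n → MP d) → Ix n → ℝ),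
    (∀ i K j, IsClosed (Pc u (D i) K j (Φ i j))) →
    (∀ i j j' Q, j ≤ j' → Φ i j Q → Φ i j' Q) → (∀ i, Est u (D i) (Φ i) (v i)) →
    (∀ᵐ x, ∃ i, ∀ K, ∃ j, 1 ≤ j ∧ x ∈ Pc u (D i) K j (Φ i j)) →
    ∃ V : E d → Ix n → ℝ, Measurable V ∧
      (∀ᵐ x, ∃ i, ∀ K, ∃ (j : ℕ) (Q : Ix n → MP d), 1 ≤ j ∧ ‖x‖ ≤ j ∧ Adm u (D i) K j x Q ∧
        Φ i j Q ∧ V x = v i Q) ∧
      ∀ᵐ x : E d, ∀ K : ℕ, ∃ C : ℝ, Small fun τ => {η | C * τ ^ K < ‖V (x + η) - V x‖}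

/-- row EstT: the estimate for top coefficients. -/
def SEstT : Prop :=
  ∀ (d n : ℕ) (u : E d → Ix n → ℝ) (D M : ℕ) (a : Ix n) (w : E d), UF u → ‖w‖ = 1 →
    (Est u D (fun j Q => Top j w M a Q) fun Q => nv a (rawT w M Q)) ∧
    Est u D (fun j Q => Top j w M a Q ∧ ∀ b, DegL (Q b) w M) fun Q => nv a (rawE w M Q)

/-- row EstG: the estimate for slope and offset. -/
def SEstG : Prop :=
  ∀ (d n : ℕ) (u : E d → Ix n → ℝ) (D m : ℕ) (w : E d), UF u → ‖w‖ = 1 →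
    Est u D (fun j Q => G1 j w m Q) (valG w m)

/-- row Clo5: the pieces are closed, jointly in the direction, and monotone. -/
def SClo5 : Prop :=
  ∀ (d n : ℕ) (c : Fin 5) (m M : ℕ) (a : Ix n),
    (∀ (u : E d → Ix n → ℝ) (D K j : ℕ),
      IsClosed {x : E d × E d | x.1 ∈ Pc u D K j (Ph5 c m M a j x.2)}) ∧
    ∀ (j j' : ℕ) (w : E d) (Q : Ix n → MP d), j ≤ j' → Ph5 c m M a j w Q → Ph5 c m M a j' w Q

/-- row Exh5: a typed vector has a class in almost every direction. -/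
def SExh5 : Prop :=
  ∀ (d n : ℕ) (Q : Ix n → MP d), 1 ≤ d → TyQ Q →
    ∀ᵐ z : E d, ∃ (c : Fin 5) (m M : ℕ) (a : Ix n), ∀ᶠ j : ℕ in atTop,
      Ph5 c m M a j (‖z‖⁻¹ • z) Q

/-- row Dir: one direction for almost every point. -/
def SDir : Prop :=
  ∀ (d n : ℕ) (P : E d → Matrix (Ix n) (Ix n) ℝ) (u : E d → Ix n → ℝ), 2 ≤ d → JetField P u →
    ∃ w : E d, ‖w‖ = 1 ∧ ∀ᵐ x, ∃ i : ℕ × Fin 5 × ℕ × ℕ × Ix n, ∀ K, ∃ j, 1 ≤ j ∧
      x ∈ Pc u i.1 K j (Ph5 i.2.1 i.2.2.1 i.2.2.2.1 i.2.2.2.2 j w)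

/-- row ET: a Euclidean member against the top of a general member. -/
def SET : Prop :=
  ∀ (d n : ℕ) (Q Q' : Ix n → MP d) (w : E d) (M m' M' : ℕ), ‖w‖ = 1 → EdgeId Q Q' → Q sI = 0 →
    (∀ i, DegL (Q (Sum.inl i)) w M) → DegL (Q' sI) w m' → co (Q' sI) w m' ≠ 0 →
    (∀ i, DegL (Q' (Sum.inl i)) w M') → m' < M' →
    ∑ i, co (Q (Sum.inl i)) w M * co (Q' (Sum.inl i)) w M' = 0

/-- row EG: Euclidean members against members with a short slope. -/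
def SEG : Prop :=
  ∀ (d n : ℕ) (Q Q' : Ix n → MP d) (w : E d) (j m M m' : ℕ) (a : Ix n), 1 ≤ d → ‖w‖ = 1 →
    EdgeId Q Q' → G1 j w m' Q' →
    (E1 j w M a Q → lz (rawE w M Q) (valG w m' Q') = 0) ∧ ¬ E2 j w m M a Q

/-- row GG: two general members. -/
def SGG : Prop :=
  (∀ (d n : ℕ) (Q Q' : Ix n → MP d) (w : E d) (j m M m' : ℕ) (a : Ix n), ‖w‖ = 1 →
    EdgeId Q Q' → Gq j w m' Q' →
    ¬ G2 j w m M a Q ∧ (G1 j w m' Q' → ¬ G3 j w m M a Q) ∧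
    (G1 j w m Q → lz (valG w m Q) (valG w m' Q') = 0)) ∧
  ∀ (d n : ℕ) (Q : Ix n → MP d) (w : E d) (j m : ℕ), G1 j w m Q →
    0 < lz (valG w m Q) (valG w m Q)

/-- row Orth: the values are positive and orthogonal on edges. -/
def SOrth : Prop :=
  ∀ (d n : ℕ) (Q Q' : Ix n → MP d) (w : E d) (j : ℕ) (c c' : Fin 5) (m M m' M' : ℕ) (a a' : Ix n),
    1 ≤ d → ‖w‖ = 1 → Ph5 c m M a j w Q →
    0 < lz (val c m M a w Q) (val c m M a w Q) ∧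
    (Ph5 c' m' M' a' j w Q' → EdgeId Q Q' → ¬ (Cl2 j Q ∧ Cl2 j Q') →
      lz (val c m M a w Q) (val c' m' M' a' w Q') = 0)

/-- row Case2: an isometry, or no edge inside the isometric pieces. -/
def SCase2 : Prop :=
  ∀ (d n : ℕ) (P : E d → Matrix (Ix n) (Ix n) ℝ) (u : E d → Ix n → ℝ), 2 ≤ d → Field P →
    JetField P u →
    (∃ g : E d → E n, Iso g ∧ ∀ᵐ x, ∀ a b, P x a b = P x sI sI * lift (g x) a * lift (g x) b) ∨
      AllPair fun x y => ∀ D j : ℕ, 1 ≤ j →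
        ¬ (x ∈ Pc u D (4 * D + 1) j (Cl2 j) ∧ y ∈ Pc u D (4 * D + 1) j (Cl2 j))

/-- the dichotomy for every target dimension. -/
def SDichN : Prop :=
  ∀ (d n : ℕ) (P : E d → Matrix (Ix n) (Ix n) ℝ) (u : E d → Ix n → ℝ), 2 ≤ d →
    Field P → JetField P u →
    (∃ g : E d → E n, Iso g ∧ ∀ᵐ x, ∀ a b, P x a b = P x sI sI * lift (g x) a * lift (g x) b) ∨
      ∃ V : E d → Ix n → ℝ, FlatF V

/-- the reduction: no family, no exotic map. -/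
theorem allIso_of_noFam (h1 : STr) (h2 : SJ3) (h3 : SDichN) (h4 : SFam) (d n : ℕ) (hd : 3 ≤ d)
    (h5 : ∀ O : (Ix n → ℝ) → Set (E d), ¬ Fam O) : XT.AllIso d n := by
  refine h1 d n hd fun P hP => ?_
  obtain ⟨u, hu⟩ := h2 d n hd P hP
  rcases h3 d n P u (by omega) hP hu with h | ⟨V, hV⟩
  · exact h
  · obtain ⟨O, hO⟩ := h4 d n V hd hV
    exact absurd hO (h5 O)

end Pool.Agent.MP_66cee2_co.F
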