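import Pool.Agent.MP_66cee2_co.F.Main
import Pool.Agent.MP_66cee2_co.TR.TT
import Pool.Agent.MP_66cee2_co.D.Mono

/-
Maps into spaces of dimension at most `3 d - 4`, and the plane: the theorem.
-/

namespace Pool.Agent.MP_66cee2_co.F

theorem allIso3 (d n : ℕ) (hd : 3 ≤ d) (hn : n + 4 ≤ 3 * d) : XT.AllIso d n :=
  allIso_noFam d n hd fun O => TR.sTT3 d n O hd hn

theorem allIsoMax (d n : ℕ) (hd : 2 ≤ d) (hn : n ≤ max (2 * d - 1) (3 * d - 4)) :
    XT.AllIso d n := by
  rcases Nat.lt_or_ge d 3 with h | h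
  · obtain rfl : d = 2 := by omega
    exact D.allIso_two n (by omega)
  · exact allIso3 d n h (by omega)

end Pool.Agent.MP_66cee2_co.F
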